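import Mathlib
import Pool.Agent.Helper86.Acute.Geo

/-!
MP_1a78aa_co: from a bound for generic configurations to the limit.
-/

namespace Pool.Agent.Helper88.Acute

open Filter Topology Pool.Agent.Helper86.Acute

/-- ordered triples -/
abbrev Tr (n : ℕ) : Type := Fin n × Fin n × Fin n

open Classical in
/-- the set of non-acute angles -/
noncomputable def bad {n : ℕ} (P : Fin n → Pt) : Finset (Tr n) :=
  Finset.univ.filter (fun t => t.1 < t.2.2 ∧ t.2.1 ≠ t.1 ∧ t.2.1 ≠ t.2.2 ∧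
    Real.pi / 2 ≤ EuclideanGeometry.angle (P t.1) (P t.2.1) (P t.2.2))

lemma mem_bad {n : ℕ} {P : Fin n → Pt} {t : Tr n} : t ∈ bad P ↔
    t.1 < t.2.2 ∧ t.2.1 ≠ t.1 ∧ t.2.1 ≠ t.2.2 ∧
    Real.pi / 2 ≤ EuclideanGeometry.angle (P t.1) (P t.2.1) (P t.2.2) := by
  unfold bad
  rw [Finset.mem_filter]
  simp only [Finset.mem_univ, true_and]

lemma nonAcute_eq {n : ℕ} (P : Fin n → Pt) : nonAcute P = (bad P).card := by
  classical
  unfold nonAcute
  rw [← Nat.card_eq_finsetCard]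
  apply Nat.card_congr
  apply Equiv.subtypeEquivRight
  intro t
  rw [mem_bad]

lemma card_avoid {n : ℕ} {a b c : Fin (n + 1)} (hab : a ≠ b) (hac : a ≠ c) (hbc : b ≠ c) :
    (Finset.univ.filter (fun v : Fin (n + 1) => v ≠ a ∧ v ≠ b ∧ v ≠ c)).card = n - 2 := by
  have e : Finset.univ.filter (fun v : Fin (n + 1) => v ≠ a ∧ v ≠ b ∧ v ≠ c) =
      ({a, b, c} : Finset (Fin (n + 1)))ᶜ := by
    ext v
    simp
  rw [e, Finset.card_compl, Finset.card_eq_three.2 ⟨a, b, c, hab, hac, hbc, rfl⟩, Fintype.card_fin]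
  omega

lemma sum_le {n : ℕ} (P : Fin (n + 1) → Pt) :
    ∑ v : Fin (n + 1), nonAcute (P ∘ v.succAbove) ≤ (n - 2) * nonAcute P := by
  classical
  set r : Fin (n + 1) → Tr (n + 1) → Prop := fun v t => v ≠ t.1 ∧ v ≠ t.2.1 ∧ v ≠ t.2.2 with hr
  have h1 : ∀ v : Fin (n + 1), nonAcute (P ∘ v.succAbove) ≤
      ((bad P).bipartiteAbove r v).card := by
    intro v
    rw [nonAcute_eq]
    apply Finset.card_le_card_of_injOn
      (fun t => (v.succAbove t.1, v.succAbove t.2.1, v.succAbove t.2.2))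
    · intro t ht
      rw [Finset.mem_coe, mem_bad] at ht
      rw [Finset.mem_coe, Finset.mem_bipartiteAbove, mem_bad]
      refine ⟨⟨?_, ?_, ?_, ht.2.2.2⟩, (Fin.succAbove_ne v _).symm, (Fin.succAbove_ne v _).symm,
        (Fin.succAbove_ne v _).symm⟩
      · exact (Fin.strictMono_succAbove v) ht.1
      · exact fun h => ht.2.1 (Fin.succAbove_right_injective h)
      · exact fun h => ht.2.2.1 (Fin.succAbove_right_injective h)
    · rintro ⟨a, b, c⟩ _ ⟨a', b', c'⟩ _ h
      simp only [Prod.mk.injEq, Fin.succAbove_right_inj] at h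
      exact Prod.ext h.1 (Prod.ext h.2.1 h.2.2)
  calc ∑ v : Fin (n + 1), nonAcute (P ∘ v.succAbove)
      ≤ ∑ v : Fin (n + 1), ((bad P).bipartiteAbove r v).card := Finset.sum_le_sum (fun v _ => h1 v)
    _ = ∑ t ∈ bad P, ((Finset.univ : Finset (Fin (n + 1))).bipartiteBelow r t).card :=
        Finset.sum_card_bipartiteAbove_eq_sum_card_bipartiteBelow r
    _ = ∑ t ∈ bad P, (n - 2) := by
        apply Finset.sum_congr rfl
        intro t ht
        rw [mem_bad] at ht
        exact card_avoid ht.2.1.symm (ne_of_lt ht.1) ht.2.2.1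
    _ = (n - 2) * nonAcute P := by
        rw [Finset.sum_const, nonAcute_eq, smul_eq_mul, mul_comm]

/-- the smallest number of non-acute angles -/
noncomputable def M (n : ℕ) : ℝ := ⨅ P : {P : Fin n → Pt // Function.Injective P}, (nonAcute P.1 : ℝ)

lemma minProp_eq (n : ℕ) : minProp n = M n / ((n : ℝ) * (n - 1) * (n - 2) / 2) := rfl

instance inst_nonempty (n : ℕ) : Nonempty {P : Fin n → Pt // Function.Injective P} := by
  refine ⟨⟨fun i => EuclideanSpace.single 0 (i : ℝ), ?_⟩⟩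
  intro i j h
  have h1 := congrArg (fun x : Pt => x 0) h
  simp only [EuclideanSpace.single_apply, if_true] at h1
  exact Fin.ext (by exact_mod_cast h1)

lemma M_bdd (n : ℕ) :
    BddBelow (Set.range fun P : {P : Fin n → Pt // Function.Injective P} => (nonAcute P.1 : ℝ)) :=
  ⟨0, by rintro _ ⟨P, rfl⟩; positivity⟩

lemma M_le {n : ℕ} {P : Fin n → Pt} (hP : Function.Injective P) : M n ≤ nonAcute P :=
  ciInf_le (M_bdd n) (⟨P, hP⟩ : {P : Fin n → Pt // Function.Injective P})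

lemma le_M {n : ℕ} {x : ℝ} (h : ∀ P : Fin n → Pt, Function.Injective P → x ≤ nonAcute P) :
    x ≤ M n :=
  le_ciInf (fun P => h P.1 P.2)

lemma M_nonneg (n : ℕ) : 0 ≤ M n := le_M (fun _ _ => by positivity)

lemma M_step {n : ℕ} (hn : 3 ≤ n) : ((n : ℝ) + 1) * M n ≤ ((n : ℝ) - 2) * M (n + 1) := by
  have hn2 : (0 : ℝ) < (n : ℝ) - 2 := by
    have : (3 : ℝ) ≤ n := by exact_mod_cast hn
    linarith
  rw [← div_le_iff₀' hn2]
  apply le_M
  intro P hP
  rw [div_le_iff₀' hn2]
  have h1 : ((∑ v : Fin (n + 1), nonAcute (P ∘ v.succAbove) : ℕ) : ℝ) ≤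
      (((n - 2) * nonAcute P : ℕ) : ℝ) := by exact_mod_cast sum_le P
  push_cast [Nat.cast_sub (by omega : 2 ≤ n)] at h1
  refine le_trans ?_ h1
  calc ((n : ℝ) + 1) * M n = ∑ v : Fin (n + 1), M n := by
        rw [Finset.sum_const, Finset.card_univ, Fintype.card_fin, nsmul_eq_mul]
        push_cast
        ring
    _ ≤ ∑ v : Fin (n + 1), (nonAcute (P ∘ v.succAbove) : ℝ) :=
        Finset.sum_le_sum (fun v _ => M_le (hP.comp Fin.succAbove_right_injective))

lemma minProp_step {n : ℕ} (hn : 3 ≤ n) : minProp n ≤ minProp (n + 1) := by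
  have h3 : (3 : ℝ) ≤ n := by exact_mod_cast hn
  have h0 : (0 : ℝ) < n := by linarith
  have h1 : (0 : ℝ) < (n : ℝ) - 1 := by linarith
  have h2 : (0 : ℝ) < (n : ℝ) - 2 := by linarith
  have hs := M_step hn
  rw [minProp_eq, minProp_eq]
  push_cast
  have e1 : ((n : ℝ) + 1) * (n + 1 - 1) * (n + 1 - 2) / 2 = ((n : ℝ) + 1) * n * (n - 1) / 2 := by
    ring
  rw [e1, div_le_div_iff₀ (by positivity) (by positivity)]
  nlinarith [mul_le_mul_of_nonneg_left hs (by positivity : 0 ≤ (n : ℝ) * (n - 1) / 2)]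

lemma nonAcute_le {n : ℕ} (P : Fin n → Pt) : nonAcute P ≤ n ^ 3 := by
  rw [nonAcute_eq]
  refine (Finset.card_le_univ _).trans (le_of_eq ?_)
  rw [Fintype.card_prod, Fintype.card_prod, Fintype.card_fin]
  ring

lemma minProp_le {n : ℕ} (hn : 3 ≤ n) : minProp n ≤ 9 := by
  have h3 : (3 : ℝ) ≤ n := by exact_mod_cast hn
  have h0 : (0 : ℝ) < n := by linarith
  have h1 : (0 : ℝ) < (n : ℝ) - 1 := by linarith
  have h2 : (0 : ℝ) < (n : ℝ) - 2 := by linarith
  rw [minProp_eq, div_le_iff₀ (by positivity)]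
  obtain ⟨P, hP⟩ := inst_nonempty n
  refine (M_le hP).trans ?_
  have h4 : (nonAcute P : ℝ) ≤ (n : ℝ) ^ 3 := by exact_mod_cast nonAcute_le P
  refine h4.trans ?_
  have : 0 ≤ (n : ℝ) * (((n : ℝ) - 3) * (7 * n - 6)) := by
    have : (0 : ℝ) ≤ n - 3 := by linarith
    have : (0 : ℝ) ≤ 7 * n - 6 := by linarith
    positivity
  nlinarith [this]

lemma minProp_tendsto : ∃ L, Tendsto minProp atTop (𝓝 L) := by
  have hmono : Monotone (fun n => minProp (n + 3)) := by
    apply monotone_nat_of_le_succ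
    intro n
    exact minProp_step (n := n + 3) (by omega)
  have hbdd : BddAbove (Set.range (fun n => minProp (n + 3))) :=
    ⟨9, by rintro _ ⟨n, rfl⟩; exact minProp_le (by omega)⟩
  exact ⟨_, (tendsto_add_atTop_iff_nat 3).1 (tendsto_atTop_ciSup hmono hbdd)⟩

/-- the permutations of a triple -/
def perms {n : ℕ} (t : Tr n) : Finset (Tr n) :=
  {(t.1, t.2.1, t.2.2), (t.1, t.2.2, t.2.1), (t.2.1, t.1, t.2.2), (t.2.1, t.2.2, t.1),
    (t.2.2, t.1, t.2.1), (t.2.2, t.2.1, t.1)}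

lemma card_perms {n : ℕ} (t : Tr n) : (perms t).card ≤ 6 := by
  unfold perms
  exact Finset.card_le_six

open Classical in
/-- distinct triples that are not acute -/
noncomputable def D {n : ℕ} (P : Fin n → Pt) : Finset (Tr n) :=
  Finset.univ.filter (fun t => t.1 ≠ t.2.1 ∧ t.1 ≠ t.2.2 ∧ t.2.1 ≠ t.2.2 ∧
    ¬ (EuclideanGeometry.angle (P t.2.1) (P t.1) (P t.2.2) < Real.pi / 2 ∧
      EuclideanGeometry.angle (P t.1) (P t.2.1) (P t.2.2) < Real.pi / 2 ∧
      EuclideanGeometry.angle (P t.1) (P t.2.2) (P t.2.1) < Real.pi / 2))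

lemma D_sub {n : ℕ} (P : Fin n → Pt) : D P ⊆ (bad P).biUnion perms := by
  rintro ⟨i, j, k⟩ h
  unfold D at h
  simp only [Finset.mem_filter, Finset.mem_univ, true_and] at h
  obtain ⟨hij, hik, hjk, h⟩ := h
  rw [Finset.mem_biUnion]
  have hcase : Real.pi / 2 ≤ EuclideanGeometry.angle (P j) (P i) (P k) ∨
      Real.pi / 2 ≤ EuclideanGeometry.angle (P i) (P j) (P k) ∨
      Real.pi / 2 ≤ EuclideanGeometry.angle (P i) (P k) (P j) := by
    by_contra hc
    push Not at hc
    exact h hc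
  rcases hcase with h1 | h1 | h1
  · rcases lt_or_gt_of_ne hjk with h2 | h2
    · exact ⟨(j, i, k), mem_bad.2 ⟨h2, hij, hik, h1⟩, by simp [perms]⟩
    · exact ⟨(k, i, j), mem_bad.2 ⟨h2, hik, hij, by
        rw [EuclideanGeometry.angle_comm]; exact h1⟩, by simp [perms]⟩
  · rcases lt_or_gt_of_ne hik with h2 | h2
    · exact ⟨(i, j, k), mem_bad.2 ⟨h2, hij.symm, hjk, h1⟩, by simp [perms]⟩
    · exact ⟨(k, j, i), mem_bad.2 ⟨h2, hjk, hij.symm, by
        rw [EuclideanGeometry.angle_comm]; exact h1⟩, by simp [perms]⟩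
  · rcases lt_or_gt_of_ne hij with h2 | h2
    · exact ⟨(i, k, j), mem_bad.2 ⟨h2, hik.symm, hjk.symm, h1⟩, by simp [perms]⟩
    · exact ⟨(j, k, i), mem_bad.2 ⟨h2, hjk.symm, hik.symm, by
        rw [EuclideanGeometry.angle_comm]; exact h1⟩, by simp [perms]⟩

lemma card_D {n : ℕ} (P : Fin n → Pt) : (D P).card ≤ 6 * nonAcute P := by
  calc (D P).card ≤ ((bad P).biUnion perms).card := Finset.card_le_card (D_sub P)
    _ ≤ ∑ t ∈ bad P, (perms t).card := Finset.card_biUnion_le
    _ ≤ ∑ t ∈ bad P, 6 := Finset.sum_le_sum (fun t _ => card_perms t)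
    _ = 6 * nonAcute P := by rw [Finset.sum_const, nonAcute_eq, smul_eq_mul, mul_comm]

lemma total {n : ℕ} (P : Fin n → Pt) (X Y : Fin n → ℝ)
    (h : ∀ i j k : Fin n, i ≠ j → i ≠ k → j ≠ k →
      EuclideanGeometry.angle (P j) (P i) (P k) < Real.pi / 2 →
      EuclideanGeometry.angle (P i) (P j) (P k) < Real.pi / 2 →
      EuclideanGeometry.angle (P i) (P k) (P j) < Real.pi / 2 →
      st X Y i j k = .a) :
    n ^ 3 ≤ 3 * n ^ 2 + acuteCount X Y + 6 * nonAcute P := by
  classical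
  set A : Finset (Tr n) := Finset.univ.filter (fun t => t.1 ≠ t.2.1 ∧ t.1 ≠ t.2.2 ∧
    t.2.1 ≠ t.2.2 ∧ st X Y t.1 t.2.1 t.2.2 = .a) with hA
  have hAc : A.card = acuteCount X Y := by
    unfold acuteCount
    rw [← Nat.card_eq_finsetCard]
    apply Nat.card_congr
    apply Equiv.subtypeEquivRight
    intro t
    rw [hA, Finset.mem_filter]
    simp only [Finset.mem_univ, true_and]
  set U : Finset (Fin n × Fin n) := Finset.univ with hU
  have hUc : U.card = n ^ 2 := by
    rw [hU, Finset.card_univ, Fintype.card_prod, Fintype.card_fin]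
    ring
  set B1 : Finset (Tr n) := U.image (fun p => (p.1, p.1, p.2)) with hB1
  set B2 : Finset (Tr n) := U.image (fun p => (p.1, p.2, p.1)) with hB2
  set B3 : Finset (Tr n) := U.image (fun p => (p.2, p.1, p.1)) with hB3
  have hcov : (Finset.univ : Finset (Tr n)) ⊆ (B1 ∪ (B2 ∪ B3)) ∪ (A ∪ D P) := by
    rintro ⟨i, j, k⟩ _
    by_cases hij : i = j
    · subst hij
      apply Finset.mem_union_left
      apply Finset.mem_union_left
      exact Finset.mem_image.2 ⟨(i, k), Finset.mem_univ _, rfl⟩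
    by_cases hik : i = k
    · subst hik
      apply Finset.mem_union_left
      apply Finset.mem_union_right
      apply Finset.mem_union_left
      exact Finset.mem_image.2 ⟨(i, j), Finset.mem_univ _, rfl⟩
    by_cases hjk : j = k
    · subst hjk
      apply Finset.mem_union_left
      apply Finset.mem_union_right
      apply Finset.mem_union_right
      exact Finset.mem_image.2 ⟨(j, i), Finset.mem_univ _, rfl⟩
    apply Finset.mem_union_right
    by_cases hac : EuclideanGeometry.angle (P j) (P i) (P k) < Real.pi / 2 ∧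
      EuclideanGeometry.angle (P i) (P j) (P k) < Real.pi / 2 ∧
      EuclideanGeometry.angle (P i) (P k) (P j) < Real.pi / 2
    · apply Finset.mem_union_left
      rw [hA, Finset.mem_filter]
      exact ⟨Finset.mem_univ _, hij, hik, hjk, h i j k hij hik hjk hac.1 hac.2.1 hac.2.2⟩
    · apply Finset.mem_union_right
      unfold D
      rw [Finset.mem_filter]
      exact ⟨Finset.mem_univ _, hij, hik, hjk, hac⟩
  have hc := Finset.card_le_card hcov
  have hn : (Finset.univ : Finset (Tr n)).card = n ^ 3 := by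
    rw [Finset.card_univ, Fintype.card_prod, Fintype.card_prod, Fintype.card_fin]
    ring
  rw [hn] at hc
  have u1 := Finset.card_union_le (B1 ∪ (B2 ∪ B3)) (A ∪ D P)
  have u2 := Finset.card_union_le B1 (B2 ∪ B3)
  have u3 := Finset.card_union_le B2 B3
  have u4 := Finset.card_union_le A (D P)
  have b1 : B1.card ≤ n ^ 2 := hUc ▸ Finset.card_image_le
  have b2 : B2.card ≤ n ^ 2 := hUc ▸ Finset.card_image_le
  have b3 : B3.card ≤ n ^ 2 := hUc ▸ Finset.card_image_le
  have b4 := card_D P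
  omega

lemma g_tendsto (lam C : ℝ) : Tendsto (fun n : ℕ =>
    (((n : ℝ) ^ 3 - 3 * n ^ 2 - (lam * n ^ 3 + C * n ^ 2)) / 6) /
      ((n : ℝ) * (n - 1) * (n - 2) / 2)) atTop (𝓝 ((1 - lam) / 3)) := by
  have h1 : Tendsto (fun n : ℕ => ((1 - lam) - (3 + C) / (n : ℝ)) /
      (3 * ((1 - 1 / (n : ℝ)) * (1 - 2 / (n : ℝ))))) atTop
      (𝓝 (((1 - lam) - 0) / (3 * ((1 - 0) * (1 - 0))))) := by
    apply Tendsto.div
    · exact tendsto_const_nhds.sub (tendsto_const_div_atTop_nhds_zero_nat _)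
    · exact tendsto_const_nhds.mul ((tendsto_const_nhds.sub
        (tendsto_const_div_atTop_nhds_zero_nat _)).mul (tendsto_const_nhds.sub
        (tendsto_const_div_atTop_nhds_zero_nat _)))
    · norm_num
  have e : ((1 - lam) - 0) / (3 * (((1 : ℝ) - 0) * (1 - 0))) = (1 - lam) / 3 := by ring
  rw [e] at h1
  refine h1.congr' ?_
  filter_upwards [eventually_ge_atTop 3] with n hn
  have h3 : (3 : ℝ) ≤ n := by exact_mod_cast hn
  have h0 : (n : ℝ) ≠ 0 := by positivity
  have h1 : (n : ℝ) - 1 ≠ 0 := by linarith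
  have h2 : (n : ℝ) - 2 ≠ 0 := by linarith
  field_simp
  ring

theorem fin (hp : PertStmt) : FinStmt := by
  intro lam C h
  obtain ⟨L, hL⟩ := minProp_tendsto
  refine ⟨L, hL, ?_⟩
  refine le_of_tendsto_of_tendsto (g_tendsto lam C) hL ?_
  filter_upwards [eventually_ge_atTop 3] with n hn
  have h3 : (3 : ℝ) ≤ n := by exact_mod_cast hn
  have h0 : (0 : ℝ) < n := by linarith
  have h1 : (0 : ℝ) < (n : ℝ) - 1 := by linarith
  have h2 : (0 : ℝ) < (n : ℝ) - 2 := by linarith
  rw [minProp_eq]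
  apply div_le_div_of_nonneg_right _ (by positivity)
  apply le_M
  intro P hP
  obtain ⟨X, Y, hg, hXY⟩ := hp n P hP
  have t1 := total P X Y hXY
  have t2 := h n X Y hg
  have t3 : ((n ^ 3 : ℕ) : ℝ) ≤ ((3 * n ^ 2 + acuteCount X Y + 6 * nonAcute P : ℕ) : ℝ) := by
    exact_mod_cast t1
  push_cast at t3
  linarith

end Pool.Agent.Helper88.Acute
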